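import Pool.Agent.T2h62.BB.Sep

/-!
# Property (B) and separable complemented subspaces

**Theorem.** If the complex Banach space `X` has property (B) then every separable complemented
subspace of `X` is finite dimensional.

Proof. Let `P` be a projection with infinite dimensional separable range `Y`. Choose `y_n` in `Y` with
dense span and functionals `f_n` with `f_n (y_m) = 0` for `m < n` and `f_n (y_n) ≠ 0`. The operator
`K x = ∑ c_n f_(n+1) (P x) y_n` with rapidly decreasing `c_n > 0` is a limit of nilpotent operators,
so fast that `K - 2^(-N)` is invertible for all `N`. Then `T = K + (1 - P)` is not injective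
(`T y_0 = 0`), `T - 2^(-N)` is invertible for `N ≥ 1`, so `0` is a boundary point of the spectrum,
and a functional which vanishes on the range of `T` vanishes on `y_0, y_1, …` and on the range of
`1 - P`, so it is `0`.
-/

set_option autoImplicit false

namespace Pool.Agent.Results.MP_e2cf1f_an.ComplementedSubspaces

open Pool.Agent.T2h62.BB

/-- **Theorem.** Separable complemented subspaces of a space with property (B) are finite
dimensional. -/
theorem result (X : Type) [NormedAddCommGroup X] [NormedSpace ℂ X] [CompleteSpace X]
    (hB : PropB X) (P : X →L[ℂ] X) (hP : ∀ x, P (P x) = P x)
    (hsep : TopologicalSpace.IsSeparable (Set.range P)) :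
    FiniteDimensional ℂ (LinearMap.range P.toLinearMap) :=
  finiteDimensional_of_propB hB P hP hsep

end Pool.Agent.Results.MP_e2cf1f_an.ComplementedSubspaces
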