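import Pool.Agent.T2h62.BB.Core

/-!
# Spaces with few operators and property (B)

Property (B): for every bounded operator `T` on the complex Banach space `X` the boundary of the
spectrum of `T` consists of eigenvalues of the adjoint of `T`. The question is whether (B) implies the
Grothendieck property and the Dunford-Pettis property (Q1), or at least one of them (Q2).

**Theorem.** (1) If `X` is not separable and every operator on `X` is a scalar plus a strictly singular
operator with separable range, then `X` has property (B).
(2) Let in addition `X = Z*` be a dual space such that `Z` is not weakly sequentially complete. Then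
`X` does not have the Grothendieck property; and if bounded sequences in `X` have weakly Cauchy
subsequences (`X` contains no copy of `ℓ_1`, by Rosenthal's theorem), then `X` does not have the
Dunford-Pettis property.

So a space as in (2) answers Q1 and Q2 in the negative. The nonseparable hereditarily indecomposable
dual spaces of Argyros and Tolias (Memoirs AMS 806, 2004) are such spaces: their space `Y` is the dual
of a separable hereditarily indecomposable space, and every operator on `Y` is a scalar plus a weakly
compact operator (which has separable range, and is strictly singular). This existence theorem is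
not proved here.

Proof of (1). Let `z` be a boundary point of the spectrum of `T = a + S`. Then `T - z` is not
surjective (if it were, solve `(T - w) x = 0` for `w` near `z` by iteration: `T - z` would be
injective). If `z ≠ a` then `T - z = S - (z - a)` has closed range (Kato), so the range is not dense. If
`z = a` then `T - z = S` has separable range. In both cases a nonzero functional vanishes on the range
of `T - z`. (2): the limit of a weakly Cauchy sequence of `Z` in `X* = Z**` is a weak* limit, and
if it were a weak limit then it would be in `Z`; for the Dunford-Pettis property take differences.
-/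

set_option autoImplicit false

namespace Pool.Agent.Results.MP_e2cf1f_an.FewOperators

open Pool.Agent.T2h62.BB Filter Topology

/-- **Theorem.** (1) Nonseparable spaces with few operators have property (B). (2) Dual spaces of this
kind without the Grothendieck property and without the Dunford-Pettis property. -/
theorem result :
    (∀ (X : Type) [NormedAddCommGroup X] [NormedSpace ℂ X] [CompleteSpace X],
      ¬ TopologicalSpace.SeparableSpace X → FewOperators X → PropB X) ∧
    ∀ (Z : Type) [NormedAddCommGroup Z] [NormedSpace ℂ Z] [CompleteSpace Z],
      ¬ TopologicalSpace.SeparableSpace (StrongDual ℂ Z) → FewOperators (StrongDual ℂ Z) →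
      (∃ z : ℕ → Z, WeaklyCauchy z ∧
        ¬ ∃ z0 : Z, ∀ f : StrongDual ℂ Z, Tendsto (fun n => f (z n)) atTop (𝓝 (f z0))) →
      PropB (StrongDual ℂ Z) ∧ ¬ Grothendieck (StrongDual ℂ Z) ∧
      ((∀ x : ℕ → StrongDual ℂ Z, (∃ C, ∀ n, ‖x n‖ ≤ C) →
        ∃ φ : ℕ → ℕ, StrictMono φ ∧ WeaklyCauchy fun n => x (φ n)) →
        ¬ DunfordPettis (StrongDual ℂ Z)) := by
  refine ⟨fun X _ _ _ h1 h2 => propB h1 h2, ?_⟩
  rintro Z _ _ _ h1 h2 ⟨z, h3, h4⟩
  exact ⟨propB h1 h2, not_grothendieck z h3 h4, fun h5 => not_dunfordPettis z h3 h4 h5⟩

end Pool.Agent.Results.MP_e2cf1f_an.FewOperators
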